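import Mathlib

/-!
Arithmetic models, the Gillet-Soulé pairing, and orthogonal liftings of cycles.
-/

set_option autoImplicit false
set_option linter.checkUnivs false

universe u v

namespace Pool.Agent.Q303.HL

/-- The formal properties of the Chow groups with rational coefficients (the sums over all
codimensions) of the smooth proper schemes over a number field `E`. -/
structure Cycles where
  /-- smooth proper schemes `X` over `E` -/
  Var : Type u
  /-- `Ch^*(X)_ℚ` -/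
  G : Var → Type v
  [grpG : ∀ X, AddCommGroup (G X)]
  [modG : ∀ X, Module ℚ (G X)]
  /-- the subspace of cohomologically trivial classes -/
  triv : ∀ X, Submodule ℚ (G X)
  /-- correspondences: `Ch^*(X × Y)_ℚ` -/
  Corr : Var → Var → Type v
  /-- the action of correspondences -/
  act : ∀ {X Y}, Corr X Y → G X → G Y
  /-- the diagonal -/
  diag : ∀ X, Corr X X
  act_diag : ∀ X (c : G X), act (diag X) c = c

attribute [instance] Cycles.grpG Cycles.modG

/-- The regular proper flat models over the ring of integers of `E`, their Chow groups with rational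
coefficients, the restriction to the generic fibre, and the Gillet-Soulé pairing (bilinear on the
classes with cohomologically trivial generic fibre; its values on other classes are arbitrary). -/
structure Models (S : Cycles.{u, v}) where
  /-- the regular proper flat models of `X` -/
  Mod : S.Var → Type u
  /-- `Ch^*(𝒳)_ℚ` -/
  Ch : ∀ {X}, Mod X → Type v
  [grpC : ∀ {X} (𝒳 : Mod X), AddCommGroup (Ch 𝒳)]
  [modC : ∀ {X} (𝒳 : Mod X), Module ℚ (Ch 𝒳)]
  /-- restriction to the generic fibre -/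
  res : ∀ {X} (𝒳 : Mod X), Ch 𝒳 →ₗ[ℚ] S.G X
  /-- the pairing -/
  GS : ∀ {X} (𝒳 : Mod X), Ch 𝒳 → Ch 𝒳 → ℝ

attribute [instance] Models.grpC Models.modC

variable {S : Cycles.{u, v}} {M : Models S}

/-- the classes on `𝒳` with cohomologically trivial generic fibre. -/
def Models.Ch0 (M : Models S) {X : S.Var} (𝒳 : M.Mod X) : Set (M.Ch 𝒳) :=
  {a | M.res 𝒳 a ∈ S.triv X}

/-- the classes of cycles supported on closed fibres. -/
def Models.fin (M : Models S) {X : S.Var} (𝒳 : M.Mod X) : Set (M.Ch 𝒳) :=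
  {a | M.res 𝒳 a = 0}

/-- The Gillet-Soulé pairing is linear in the first variable on `Ch0`. -/
def Models.Linear (M : Models S) : Prop :=
  ∀ {X : S.Var} (𝒳 : M.Mod X), ∀ b ∈ M.Ch0 𝒳, ∀ a ∈ M.Ch0 𝒳,
    (∀ a' ∈ M.Ch0 𝒳, M.GS 𝒳 (a + a') b = M.GS 𝒳 a b + M.GS 𝒳 a' b) ∧
    ∀ r : ℚ, M.GS 𝒳 (r • a) b = r * M.GS 𝒳 a b

/-- The inverse and direct images, on the models and on their generic fibres, for a morphism of
models `𝒵 → 𝒳`. -/
structure Morph {Z X : S.Var} (𝒵 : M.Mod Z) (𝒳 : M.Mod X) where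
  pull : M.Ch 𝒳 → M.Ch 𝒵
  push : M.Ch 𝒵 → M.Ch 𝒳
  pullG : S.G X → S.G Z
  pushG : S.G Z → S.G X

/-- The compatibilities for a morphism of models: restriction to the generic fibre commutes with
inverse and direct images, which preserve cohomologically trivial classes and zero; and the
projection formula for the Gillet-Soulé pairing. -/
structure Morph.Good {Z X : S.Var} {𝒵 : M.Mod Z} {𝒳 : M.Mod X} (g : Morph 𝒵 𝒳) : Prop where
  res_pull : ∀ a, M.res 𝒵 (g.pull a) = g.pullG (M.res 𝒳 a)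
  res_push : ∀ b, M.res 𝒳 (g.push b) = g.pushG (M.res 𝒵 b)
  pull_triv : ∀ a ∈ S.triv X, g.pullG a ∈ S.triv Z
  push_triv : ∀ b ∈ S.triv Z, g.pushG b ∈ S.triv X
  pull_zero : g.pullG 0 = 0
  push_zero : g.pushG 0 = 0
  proj_pull : ∀ a ∈ M.Ch0 𝒳, ∀ b ∈ M.Ch0 𝒵, M.GS 𝒵 (g.pull a) b = M.GS 𝒳 a (g.push b)
  proj_push : ∀ b ∈ M.Ch0 𝒵, ∀ a ∈ M.Ch0 𝒳, M.GS 𝒳 (g.push b) a = M.GS 𝒵 b (g.pull a)

/-- The classes `h_* g^* c` on `Y`, for a class `c` on `X` and morphisms of models `g : 𝒵 → 𝒳` and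
`h : 𝒵 → 𝒴` satisfying the compatibilities. -/
def hats {X Y : S.Var} (𝒳 : M.Mod X) (𝒴 : M.Mod Y) (c : S.G X) : Set (S.G Y) :=
  {y | ∃ (Z : S.Var) (𝒵 : M.Mod Z) (g : Morph 𝒵 𝒳) (h : Morph 𝒵 𝒴), g.Good ∧ h.Good ∧
    y = h.pushG (g.pullG c)}

/-- The consequence of de Jong's theorem on alterations: for every correspondence `γ` and class `c`,
`γ_* c` is a rational combination of classes `h_* g^* c`, for any given models. -/
def Alterations (M : Models S) : Prop :=
  ∀ {X Y : S.Var} (𝒳 : M.Mod X) (𝒴 : M.Mod Y) (γ : S.Corr X Y) (c : S.G X),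
    S.act γ c ∈ Submodule.span ℚ (hats 𝒳 𝒴 c)

/-- The cohomologically trivial classes on `X` which can be lifted to a class on the model `𝒳`
orthogonal to all the classes of cycles supported on closed fibres. -/
def liftable {X : S.Var} (𝒳 : M.Mod X) : Set (S.G X) :=
  {c | ∃ l ∈ M.Ch0 𝒳, M.res 𝒳 l = c ∧ ∀ v ∈ M.fin 𝒳, M.GS 𝒳 l v = 0}

/-- The statement of the question for the model `𝒳`: all the cohomologically trivial classes have
orthogonal liftings. -/
def Holds {X : S.Var} (𝒳 : M.Mod X) : Prop := ∀ c ∈ S.triv X, c ∈ liftable 𝒳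

/-- The images, under all correspondences from `X` to `Y`, of the cohomologically trivial classes on
all the `X` for which the statement of the question holds for some model. -/
def images (M : Models S) (Y : S.Var) : Set (S.G Y) :=
  {y | ∃ (X : S.Var) (𝒳 : M.Mod X), Holds 𝒳 ∧ ∃ γ : S.Corr X Y, ∃ c ∈ S.triv X, y = S.act γ c}

/-- The span of `images`. -/
def generated (M : Models S) (Y : S.Var) : Submodule ℚ (S.G Y) :=
  Submodule.span ℚ (images M Y)

lemma mem_Ch0_of_fin {X : S.Var} {𝒳 : M.Mod X} {v : M.Ch 𝒳} (hv : v ∈ M.fin 𝒳) : v ∈ M.Ch0 𝒳 := by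
  change M.res 𝒳 v ∈ S.triv X
  rw [show M.res 𝒳 v = 0 from hv]; exact Submodule.zero_mem _

/-- the liftable classes form a subspace. -/
def liftableSub (hM : M.Linear) {X : S.Var} (𝒳 : M.Mod X) : Submodule ℚ (S.G X) where
  carrier := liftable 𝒳
  zero_mem' := by
    have h0 : (0 : M.Ch 𝒳) ∈ M.Ch0 𝒳 := by
      change M.res 𝒳 0 ∈ S.triv X
      rw [map_zero]; exact Submodule.zero_mem _
    refine ⟨0, h0, map_zero _, fun v hv => ?_⟩
    have := (hM 𝒳 v (mem_Ch0_of_fin hv) 0 h0).2 0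
    simpa using this
  add_mem' := by
    rintro a b ⟨l, hl0, rfl, hl⟩ ⟨m, hm0, rfl, hm⟩
    refine ⟨l + m, ?_, map_add _ _ _, fun v hv => ?_⟩
    · change M.res 𝒳 (l + m) ∈ S.triv X
      rw [map_add]; exact Submodule.add_mem _ hl0 hm0
    · rw [(hM 𝒳 v (mem_Ch0_of_fin hv) l hl0).1 m hm0, hl v hv, hm v hv, add_zero]
  smul_mem' := by
    rintro r a ⟨l, hl0, rfl, hl⟩
    refine ⟨r • l, ?_, map_smul _ _ _, fun v hv => ?_⟩
    · change M.res 𝒳 (r • l) ∈ S.triv X
      rw [map_smul]; exact Submodule.smul_mem _ _ hl0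
    · rw [(hM 𝒳 v (mem_Ch0_of_fin hv) l hl0).2 r, hl v hv, mul_zero]

theorem pull_liftable {Z X : S.Var} {𝒵 : M.Mod Z} {𝒳 : M.Mod X} {g : Morph 𝒵 𝒳}
    (hg : g.Good) {c : S.G X} (hc : c ∈ liftable 𝒳) : g.pullG c ∈ liftable 𝒵 := by
  obtain ⟨l, hl0, rfl, hl⟩ := hc
  refine ⟨g.pull l, ?_, hg.res_pull l, ?_⟩
  · change M.res 𝒵 (g.pull l) ∈ S.triv Z
    rw [hg.res_pull]; exact hg.pull_triv _ hl0
  intro v hv
  rw [hg.proj_pull l hl0 v (mem_Ch0_of_fin hv)]
  apply hl
  change M.res 𝒳 (g.push v) = 0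
  rw [hg.res_push, show M.res 𝒵 v = 0 from hv, hg.push_zero]

theorem push_liftable {Z X : S.Var} {𝒵 : M.Mod Z} {𝒳 : M.Mod X} {g : Morph 𝒵 𝒳}
    (hg : g.Good) {c : S.G Z} (hc : c ∈ liftable 𝒵) : g.pushG c ∈ liftable 𝒳 := by
  obtain ⟨l, hl0, rfl, hl⟩ := hc
  refine ⟨g.push l, ?_, hg.res_push l, ?_⟩
  · change M.res 𝒳 (g.push l) ∈ S.triv X
    rw [hg.res_push]; exact hg.push_triv _ hl0
  intro v hv
  rw [hg.proj_push l hl0 v (mem_Ch0_of_fin hv)]
  apply hl
  change M.res 𝒵 (g.pull v) = 0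
  rw [hg.res_pull, show M.res 𝒳 v = 0 from hv, hg.pull_zero]

/-- correspondences map liftable classes to liftable classes. -/
theorem act_liftable (hM : M.Linear) (hA : Alterations M) {X Y : S.Var} (𝒳 : M.Mod X)
    (𝒴 : M.Mod Y) (γ : S.Corr X Y) {c : S.G X} (hc : c ∈ liftable 𝒳) :
    S.act γ c ∈ liftable 𝒴 := by
  have key : Submodule.span ℚ (hats 𝒳 𝒴 c) ≤ liftableSub hM 𝒴 := by
    rw [Submodule.span_le]
    rintro _ ⟨Z, 𝒵, g, h, hg, hh, rfl⟩
    exact push_liftable hh (pull_liftable hg hc)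
  exact key (hA 𝒳 𝒴 γ c)

/-- independence of the model. -/
theorem liftable_eq (hM : M.Linear) (hA : Alterations M) {X : S.Var} (𝒳 𝒳' : M.Mod X) :
    liftable 𝒳 = liftable 𝒳' := by
  apply Set.Subset.antisymm
  · intro c hc
    have := act_liftable hM hA 𝒳 𝒳' (S.diag X) hc
    rwa [S.act_diag] at this
  · intro c hc
    have := act_liftable hM hA 𝒳' 𝒳 (S.diag X) hc
    rwa [S.act_diag] at this

/-- inheritance. -/
theorem generated_le (hM : M.Linear) (hA : Alterations M) {Y : S.Var} (𝒴 : M.Mod Y) :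
    ∀ c ∈ generated M Y, c ∈ liftable 𝒴 := by
  have : generated M Y ≤ liftableSub hM 𝒴 := by
    refine Submodule.span_le.2 ?_
    rintro _ ⟨X, 𝒳, hX, γ, c, hc, rfl⟩
    exact act_liftable hM hA 𝒳 𝒴 γ (hX c hc)
  exact fun c hc => this hc

end Pool.Agent.Q303.HL
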